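import Pool.Agent.Lib.MP_a3366f_nt.H28.Even

namespace Pool.Agent.Lib.MP_a3366f_nt.Old.EvenCountLog

theorem result : ∀ t : ℕ, Odd t → ∃ c : ℝ, 0 < c ∧ ∀ᶠ X : ℕ in Filter.atTop,
    c * Real.sqrt X * Real.log X ≤
      (((Finset.range X).filter (fun n => (∑ x ∈ Finset.Nat.antidiagonalTuple t n,
        ∏ i, Fintype.card (Nat.Partition (x i))) % 2 = 0)).card : ℝ) := by
  intro t ht
  obtain ⟨c, hc, h⟩ := Pool.Agent.Lib.MP_a3366f_nt.H28.even_main ht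
  refine ⟨c, hc, h.mono fun X hX => hX.trans (le_of_eq ?_)⟩
  simp only [Pool.Agent.Lib.MP_a3366f_nt.H28.evc, Pool.Agent.Lib.MP_a3366f_nt.H28.pt, Nat.even_iff]

end Pool.Agent.Lib.MP_a3366f_nt.Old.EvenCountLog
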