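import Mathlib
import Pool.Agent.Lib.MP_a3366f_nt.An13

/-!
For every odd `t`, the number of `n < X` for which the number of `t`-multipartitions of `n` is odd
is at least a constant times `√X * log X / (log log X) ^ 3`.
-/

namespace Pool.Agent.Lib.MP_a3366f_nt.Old.OddCount

theorem result : ∀ t : ℕ, Odd t → ∃ c : ℝ, 0 < c ∧ ∃ X₀ : ℕ, ∀ X : ℕ, X₀ ≤ X →
    c * (Real.sqrt X * (Real.log X / Real.log (Real.log X) ^ 3)) ≤
      (((Finset.range X).filter (fun n => (∑ x ∈ Finset.Nat.antidiagonalTuple t n,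
        ∏ i, Fintype.card (Nat.Partition (x i))) % 2 = 1)).card : ℝ) :=
  Pool.Agent.Lib.MP_a3366f_nt.odd_count

end Pool.Agent.Lib.MP_a3366f_nt.Old.OddCount
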