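import Mathlib
import Pool.Agent.Lib.MP_a3366f_nt.KMain

/-!
For every odd `t`, the number of `n < X` for which the number of `t`-multipartitions of `n` is odd
is at least a constant times `X ^ (3 / 4) / (log X) ^ 2`.
-/

namespace Pool.Agent.Lib.MP_a3366f_nt.Old.OddThreeQuarters

theorem result : ∀ t : ℕ, Odd t → ∃ c : ℝ, 0 < c ∧ ∃ X₀ : ℕ, ∀ X : ℕ, X₀ ≤ X →
    c * ((X : ℝ) ^ (3 / 4 : ℝ) / Real.log X ^ 2) ≤
      (((Finset.range X).filter (fun n => (∑ x ∈ Finset.Nat.antidiagonalTuple t n,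
        ∏ i, Fintype.card (Nat.Partition (x i))) % 2 = 1)).card : ℝ) :=
  fun _ ht => Pool.Agent.Lib.MP_a3366f_nt.Ker.count_parity ht (by norm_num)

end Pool.Agent.Lib.MP_a3366f_nt.Old.OddThreeQuarters
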